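import Pool.Agent.H26.ZQ.Defs

/-! JU: the other inequality in the formula of Jensen in a disc. -/

set_option autoImplicit false

open MeasureTheory Set Filter Topology Metric

namespace Pool.Agent.H16.ZQ

open Pool.Agent.H26.ZQ

open MeromorphicOn in
theorem pf_ju : T_JU := by
  classical
  intro F r T hr hr1 hF h0 hT
  have hr' : |r| = r := abs_of_pos hr
  have hF' : AnalyticOnNhd ℂ F (closedBall 0 |r|) := by rwa [hr']
  rw [hF'.circleAverage_log_norm hr.ne' h0]
  have hfin : (Function.support fun u => (divisor F (closedBall 0 |r|) u : ℝ) *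
      Real.log (r * ‖0 - u‖⁻¹)).Finite := by
    apply ((divisor F (closedBall 0 |r|)).finiteSupport (isCompact_closedBall _ _)).subset
    intro u hu
    rw [Function.mem_support] at hu ⊢
    intro h
    apply hu
    rw [h]
    simp
  have hin : ∀ w ∈ hfin.toFinset, w ∈ closedBall (0 : ℂ) r := by
    intro w hw
    by_contra hc
    have hc' : w ∉ closedBall (0 : ℂ) |r| := by rwa [hr']
    have h1 : divisor F (closedBall 0 |r|) w = 0 :=
      Function.locallyFinsuppWithin.apply_eq_zero_of_notMem _ hc'
    have h2 : w ∈ Function.support fun u => (divisor F (closedBall 0 |r|) u : ℝ) *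
        Real.log (r * ‖0 - u‖⁻¹) := by simpa using hw
    rw [Function.mem_support] at h2
    apply h2
    rw [h1]
    simp
  rw [finsum_eq_sum_of_support_subset _ (s := hfin.toFinset) (by simp)]
  have key : ∑ w ∈ hfin.toFinset, (divisor F (closedBall 0 |r|) w : ℝ) *
      Real.log (r * ‖0 - w‖⁻¹) ≤ ∑ w ∈ hfin.toFinset, (analyticOrderNatAt F w : ℝ) *
      Real.log (1 / ‖w‖) := by
    refine Finset.sum_le_sum fun w hw => ?_
    have hw' : w ∈ closedBall (0 : ℂ) |r| := by rw [hr']; exact hin w hw
    have h2 : ((analyticOrderAt F w).map (Nat.cast : ℕ → ℤ)).untop₀ =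
        (analyticOrderNatAt F w : ℤ) := by
      unfold analyticOrderNatAt
      generalize analyticOrderAt F w = e
      cases e with
      | top => simp
      | coe n => simp
    rw [hF'.divisor_apply hw', zero_sub, norm_neg, h2, Int.cast_natCast]
    apply mul_le_mul_of_nonneg_left _ (Nat.cast_nonneg _)
    by_cases hw0 : w = 0
    · simp [hw0]
    · have h3 : 0 < ‖w‖ := norm_pos_iff.mpr hw0
      apply Real.log_le_log (by positivity)
      rw [one_div]
      have : 0 < ‖w‖⁻¹ := by positivity
      nlinarith
  have := hT hfin.toFinset hin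
  linarith

end Pool.Agent.H16.ZQ
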